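import Pool.Agent.Helper44.GF.Defs

/-!
# Modules SC1, SH2, SC2
-/

set_option autoImplicit false

open Finset MeasureTheory Filter Topology

namespace Pool.Agent.Helper44.GF

section sc

variable {Y : Type} [Fintype Y]

/-- `∑ z r² exp(-t r)` -/
noncomputable def sc1_M2 (r z : Y → ℝ) (t : ℝ) : ℝ := ∑ y, z y * r y ^ 2 * Real.exp (-(t * r y))

theorem sc1_M2_nonneg {r z : Y → ℝ} (hz : ∀ y, 0 ≤ z y) (t : ℝ) : 0 ≤ sc1_M2 r z t := by
  unfold sc1_M2
  apply Finset.sum_nonneg
  intro y _
  have := hz y
  positivity

theorem sc1_m1_nonneg {r z : Y → ℝ} {d : ℝ} (hr : ∀ y, 0 < r y) (hz : ∀ y, 0 ≤ z y) (hd : 0 ≤ d)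
    (t : ℝ) : 0 ≤ m1 d r z t := by
  unfold m1
  apply add_nonneg hd
  apply Finset.sum_nonneg
  intro y _
  have := hz y
  have := hr y
  positivity

theorem sc1_deriv (d : ℝ) (r z : Y → ℝ) (t : ℝ) :
    HasDerivAt (m1 d r z) (-sc1_M2 r z t) t := by
  have h1 : ∀ y ∈ (Finset.univ : Finset Y), HasDerivAt
      (fun t : ℝ => z y * r y * Real.exp (-(t * r y)))
      (-(z y * r y ^ 2 * Real.exp (-(t * r y)))) t := by
    intro y _
    have h2 : HasDerivAt (fun t : ℝ => -(t * r y)) (-(1 * r y)) t :=
      ((hasDerivAt_id t).mul_const (r y)).neg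
    have h3 := (h2.exp).const_mul (z y * r y)
    have e : z y * r y * (Real.exp (-(t * r y)) * -(1 * r y)) =
        -(z y * r y ^ 2 * Real.exp (-(t * r y))) := by ring
    rw [e] at h3
    exact h3
  have h4 := (HasDerivAt.fun_sum h1).const_add d
  rw [Finset.sum_neg_distrib] at h4
  exact h4

theorem st_SC1 : ST_SC1 := by
  intro Y _ r z d s hr hz hd hs hs1 h1 a T ha haT
  let Φ : ℝ → ℝ := fun t => 2 * s / (1 - s) * ((t - a) * m1 d r z t) -
    ∑ y, z y * Real.exp (-(a * r y)) * (1 - Real.exp (-((t - a) * r y))) * (r y * a + s)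
  have hΦ : ∀ t, HasDerivAt Φ (2 * s / (1 - s) * (1 * m1 d r z t + (t - a) * -sc1_M2 r z t) -
      ∑ y, z y * r y * Real.exp (-(t * r y)) * (r y * a + s)) t := by
    intro t
    have g1 : HasDerivAt (fun t : ℝ => (t - a) * m1 d r z t)
        (1 * m1 d r z t + (t - a) * -sc1_M2 r z t) t :=
      ((hasDerivAt_id t).sub_const a).mul (sc1_deriv d r z t)
    have g2 : ∀ y ∈ (Finset.univ : Finset Y), HasDerivAt
        (fun t : ℝ => z y * Real.exp (-(a * r y)) * (1 - Real.exp (-((t - a) * r y))) *
          (r y * a + s))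
        (z y * r y * Real.exp (-(t * r y)) * (r y * a + s)) t := by
      intro y _
      have h2 : HasDerivAt (fun t : ℝ => -((t - a) * r y)) (-(1 * r y)) t :=
        (((hasDerivAt_id t).sub_const a).mul_const (r y)).neg
      have h3 := (((h2.exp).const_sub 1).const_mul (z y * Real.exp (-(a * r y)))).mul_const
        (r y * a + s)
      have e0 : Real.exp (-(t * r y)) = Real.exp (-(a * r y)) * Real.exp (-((t - a) * r y)) := by
        rw [← Real.exp_add]
        congr 1
        ring
      have e : z y * Real.exp (-(a * r y)) * (-(Real.exp (-((t - a) * r y)) * -(1 * r y))) *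
          (r y * a + s) = z y * r y * Real.exp (-(t * r y)) * (r y * a + s) := by
        rw [e0]
        ring
      rw [e] at h3
      exact h3
    exact (g1.const_mul (2 * s / (1 - s))).sub (HasDerivAt.fun_sum g2)
  have hmono : MonotoneOn Φ (Set.Ici a) := by
    apply monotoneOn_of_deriv_nonneg (convex_Ici a)
    · intro t _
      exact (hΦ t).continuousAt.continuousWithinAt
    · intro t _
      exact (hΦ t).differentiableAt.differentiableWithinAt
    · intro t ht
      rw [interior_Ici] at ht
      have hta : a < t := ht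
      have ht0 : 0 < t := ha.trans hta
      rw [(hΦ t).deriv]
      have hM := sc1_M2_nonneg (r := r) hz t
      have hm := sc1_m1_nonneg hr hz hd t
      have h2 : t * sc1_M2 r z t ≤ s * m1 d r z t := h1 t ht0
      have h3 : ∑ y, z y * r y * Real.exp (-(t * r y)) * (r y * a + s) =
          a * sc1_M2 r z t + s * (m1 d r z t - d) := by
        unfold sc1_M2 m1
        rw [add_sub_cancel_left, Finset.mul_sum, Finset.mul_sum, ← Finset.sum_add_distrib]
        apply Finset.sum_congr rfl
        intro y _
        ring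
      rw [h3]
      have h4 : 2 * s * m1 d r z t ≤
          2 * s / (1 - s) * (1 * m1 d r z t + (t - a) * -sc1_M2 r z t) := by
        have h5 : (1 - s) * m1 d r z t ≤ 1 * m1 d r z t + (t - a) * -sc1_M2 r z t := by
          nlinarith
        have h6 : 0 ≤ 2 * s / (1 - s) := div_nonneg (by linarith) (by linarith)
        have h7 := mul_le_mul_of_nonneg_left h5 h6
        have h8 : 2 * s / (1 - s) * ((1 - s) * m1 d r z t) = 2 * s * m1 d r z t := by
          have : (1 - s) ≠ 0 := by linarith
          field_simp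
        linarith
      have h9 : a * sc1_M2 r z t ≤ t * sc1_M2 r z t := mul_le_mul_of_nonneg_right hta.le hM
      have h10 : 0 ≤ s * d := by positivity
      linarith
  have h5 := hmono (Set.mem_Ici.2 le_rfl) (Set.mem_Ici.2 haT) haT
  have h6 : Φ a = 0 := by
    simp only [Φ]
    simp
  rw [h6] at h5
  simp only [Φ] at h5
  linarith

/-- `t ^ s * m(t)` is nondecreasing -/
theorem sh2_mono {r z : Y → ℝ} {d s : ℝ} (h1 : H1 d r z s) {a b : ℝ} (ha : 0 < a) (hab : a ≤ b) :
    a ^ s * m1 d r z a ≤ b ^ s * m1 d r z b := by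
  have hΦ : ∀ t : ℝ, 0 < t → HasDerivAt (fun t => t ^ s * m1 d r z t)
      (s * t ^ (s - 1) * m1 d r z t + t ^ s * -sc1_M2 r z t) t := by
    intro t ht
    exact (Real.hasDerivAt_rpow_const (Or.inl ht.ne')).mul (sc1_deriv d r z t)
  have hmono : MonotoneOn (fun t => t ^ s * m1 d r z t) (Set.Ioi 0) := by
    apply monotoneOn_of_deriv_nonneg (convex_Ioi 0)
    · intro t ht
      exact (hΦ t ht).continuousAt.continuousWithinAt
    · intro t ht
      rw [interior_Ioi] at ht
      exact (hΦ t ht).differentiableAt.differentiableWithinAt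
    · intro t ht
      rw [interior_Ioi] at ht
      have ht0 : 0 < t := ht
      rw [(hΦ t ht0).deriv]
      have h2 : t * sc1_M2 r z t ≤ s * m1 d r z t := h1 t ht0
      have h3 : t ^ s = t ^ (s - 1) * t := by
        rw [← Real.rpow_add_one ht0.ne']
        congr 1
        ring
      rw [h3]
      have h4 : 0 < t ^ (s - 1) := Real.rpow_pos_of_pos ht0 _
      have h5 := mul_le_mul_of_nonneg_left h2 h4.le
      nlinarith
  exact hmono ha (ha.trans_le hab) hab

theorem sh2_tail {r z : Y → ℝ} {d s : ℝ} (hr : ∀ y, 0 < r y) (hz : ∀ y, 0 ≤ z y)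
    (h1 : H1 d r z s) {t R : ℝ} (ht : 0 < t) :
    t * R * (m1 d r z t - m1c d r z R 1 t) ≤ s * m1 d r z t := by
  have h2 : t * sc1_M2 r z t ≤ s * m1 d r z t := h1 t ht
  have h3 : R * (m1 d r z t - m1c d r z R 1 t) ≤ sc1_M2 r z t := by
    unfold m1 m1c sc1_M2
    rw [add_sub_add_left_eq_sub, ← Finset.sum_sub_distrib, Finset.mul_sum]
    apply Finset.sum_le_sum
    intro y _
    have hz' := hz y
    have hr' := hr y
    have he := Real.exp_pos (-(t * r y))
    split_ifs with h
    · rw [sub_self, mul_zero]
      positivity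
    · rw [not_le, mul_one] at h
      rw [sub_zero]
      have h4 : 0 ≤ z y * r y * Real.exp (-(t * r y)) := by positivity
      nlinarith [mul_le_mul_of_nonneg_right h.le h4]
  calc t * R * (m1 d r z t - m1c d r z R 1 t) = t * (R * (m1 d r z t - m1c d r z R 1 t)) := by ring
    _ ≤ t * sc1_M2 r z t := mul_le_mul_of_nonneg_left h3 ht.le
    _ ≤ _ := h2

theorem sh2_anti {r z : Y → ℝ} {d : ℝ} (hr : ∀ y, 0 < r y) (hz : ∀ y, 0 ≤ z y) {a b : ℝ}
    (hab : a ≤ b) (A B : ℝ) : m1c d r z A B b ≤ m1c d r z A B a := by
  unfold m1c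
  apply add_le_add_right
  apply Finset.sum_le_sum
  intro y _
  split_ifs
  · have hz' := hz y
    have hr' := hr y
    apply mul_le_mul_of_nonneg_left _ (by positivity)
    apply Real.exp_le_exp.2
    nlinarith
  · exact le_rfl

theorem sh2_m1c_nonneg {r z : Y → ℝ} {d : ℝ} (hr : ∀ y, 0 < r y) (hz : ∀ y, 0 ≤ z y)
    (hd : 0 ≤ d) (A B t : ℝ) : 0 ≤ m1c d r z A B t := by
  unfold m1c
  apply add_nonneg hd
  apply Finset.sum_nonneg
  intro y _
  have := hz y
  have := hr y
  split_ifs
  · positivity
  · exact le_rfl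

end sc

theorem st_SH2 : ST_SH2 := by
  intro Y _ r z d s hr hz hd hs hs2 h1 a R v ha hR hv hva
  have hm := sc1_m1_nonneg hr hz hd a
  have haR : 0 < a * R := by positivity
  rcases le_or_gt (4 * s) (a * R) with hc | hc
  · have h2 := sh2_tail (R := R) hr hz h1 ha
    have h3 : m1 d r z a ≤ 4 / 3 * m1c d r z R 1 a := by
      by_contra hcon
      rw [not_le] at hcon
      have h4 : 1 / 4 * m1 d r z a < m1 d r z a - m1c d r z R 1 a := by linarith
      have h5 := mul_lt_mul_of_pos_left h4 haR
      have h6 : 4 * s * (1 / 4 * m1 d r z a) ≤ a * R * (1 / 4 * m1 d r z a) :=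
        mul_le_mul_of_nonneg_right hc (by linarith)
      linarith
    have h4 : v / (v + s) ≤ 1 := by
      rw [div_le_one (by linarith)]
      linarith
    calc v / (v + s) * m1 d r z a ≤ 1 * m1 d r z a := mul_le_mul_of_nonneg_right h4 hm
      _ ≤ _ := by linarith
  · set b : ℝ := 4 * s / R with hb
    have hb0 : 0 < b := by positivity
    have hbR : b * R = 4 * s := by
      rw [hb]
      field_simp
    have hab : a ≤ b := by
      rw [hb, le_div_iff₀ hR]
      exact hc.le
    have hmb := sc1_m1_nonneg hr hz hd b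
    have h2 := sh2_tail (R := R) hr hz h1 hb0
    rw [hbR] at h2
    have h3 : 3 / 4 * m1 d r z b ≤ m1c d r z R 1 b := by
      have h4 : 4 * (m1 d r z b - m1c d r z R 1 b) ≤ m1 d r z b := by
        by_contra hcon
        rw [not_le] at hcon
        have := mul_lt_mul_of_pos_left hcon hs
        linarith
      linarith
    have h4 := sh2_anti (d := d) hr hz hab R 1
    have h5 := sh2_mono h1 ha hab
    set lam : ℝ := a / b with hlam
    have hl0 : 0 < lam := by positivity
    have hl1 : lam ≤ 1 := by
      rw [hlam, div_le_one hb0]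
      exact hab
    have h6 : lam ^ s * m1 d r z a ≤ m1 d r z b := by
      rw [hlam, Real.div_rpow ha.le hb0.le, div_mul_eq_mul_div,
        div_le_iff₀ (Real.rpow_pos_of_pos hb0 s), mul_comm (m1 d r z b)]
      exact h5
    have h7 : v / (v + s) ≤ lam ^ s := by
      have h8 : Real.sqrt lam ≤ lam ^ s := by
        rw [Real.sqrt_eq_rpow]
        exact Real.rpow_le_rpow_of_exponent_ge hl0 hl1 hs2
      have h9 : v / (v + s) ≤ 4 * lam / (4 * lam + 1) := by
        rw [div_le_div_iff₀ (by linarith) (by linarith)]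
        have h10 : v ≤ 4 * lam * s := by
          have : 4 * lam * s = a * R := by
            rw [hlam, hb]
            field_simp
          rw [this]
          exact hva
        nlinarith
      have h11 : 4 * lam / (4 * lam + 1) ≤ Real.sqrt lam := by
        rw [div_le_iff₀ (by linarith)]
        have hq := Real.sqrt_nonneg lam
        have hq2 := Real.sq_sqrt hl0.le
        nlinarith [mul_nonneg hq (sq_nonneg (2 * Real.sqrt lam - 1))]
      linarith
    have h12 := mul_le_mul_of_nonneg_right h7 hm
    linarith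

theorem st_SC2 (hA : ST_SC1) (hB : ST_SH2) : ST_SC2 := by
  intro Y _ r z d s hr hz hd hs hs2 h1 a A B q ha hA0 hB0 hq
  have h8s : 0 ≤ 8 * s / (3 * (1 - s)) := div_nonneg (by linarith) (by linarith)
  rcases hB0.eq_or_lt with h0 | h0
  · rw [← h0]
    simp
  · set T : ℝ := a + q * B with hT
    have hqB : 0 < q * B := by positivity
    have h2 := hA Y r z d s hr hz hd hs (by linarith) h1 a T ha (by linarith)
    have hT0 : 0 < T := by linarith
    have e1 : T - a = q * B := by rw [hT]; ring
    rw [e1] at h2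
    have e2 : ∀ y, q * B * r y = q * r y * B := fun y => by ring
    simp only [e2] at h2
    have h3 := hB Y r z d s hr hz hd hs hs2 h1 T (A / B) (q * A) hT0 (by positivity)
      (by positivity) (by
        rw [hT, add_mul]
        have : q * B * (A / B) = q * A := by field_simp
        rw [this]
        have : 0 ≤ a * (A / B) := by positivity
        linarith)
    have e3 : m1c d r z (A / B) 1 T = m1c d r z A B T := by
      unfold m1c
      congr 1
      apply Finset.sum_congr rfl
      intro y _
      have : r y * 1 ≤ A / B ↔ r y * B ≤ A := by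
        rw [mul_one, le_div_iff₀ h0]
      simp only [this]
    rw [e3] at h3
    have hqA : 0 < q * A := by positivity
    have h4 : 2 * s / (1 - s) * (q * B) * m1 d r z T ≤
        8 * s / (3 * (1 - s)) * (q * A + s) * (B / A) * m1c d r z A B T := by
      have h5 : 0 ≤ 2 * s / (1 - s) * (q * A + s) * (B / A) := by
        have : 0 ≤ 2 * s / (1 - s) := div_nonneg (by linarith) (by linarith)
        positivity
      have h6 := mul_le_mul_of_nonneg_left h3 h5
      have e4 : 2 * s / (1 - s) * (q * A + s) * (B / A) * (q * A / (q * A + s) * m1 d r z T) =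
          2 * s / (1 - s) * (q * B) * m1 d r z T := by
        have : q * A + s ≠ 0 := by linarith
        have : (1 - s) ≠ 0 := by linarith
        field_simp
      have e5 : 2 * s / (1 - s) * (q * A + s) * (B / A) * (4 / 3 * m1c d r z A B T) =
          8 * s / (3 * (1 - s)) * (q * A + s) * (B / A) * m1c d r z A B T := by
        have : (1 - s) ≠ 0 := by linarith
        field_simp
        ring
      rw [e4, e5] at h6
      exact h6
    exact h2.trans h4

end Pool.Agent.Helper44.GF
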